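import Pool.Agent.helper48.PP.Final

/-!
MP_a87880_co (eventual dominance between avoider counts of two patterns).

Let `x`, `y` be patterns (possibly empty) and let `p` be a pattern that is not a skew sum and does
not end with its largest entry, with `|Av_m(x ⊕ 1 ⊕ y)| ≤ |Av_m(p)|` for all `m`; for example
`p = x ⊕ 1 ⊕ y`, if `y` is not empty and does not end with its largest entry. Then the avoiders
of `p ⊕ 1` eventually outnumber the avoiders of `x ⊕ 12 ⊕ y` by an exponential factor.
-/

namespace Pool.Agent.Results.MP_a87880_co.EndInsertion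

open Equiv Pool.Agent.helper48.PP

theorem result {a b k : ℕ} (x : Perm (Fin a)) (y : Perm (Fin b)) (p : Perm (Fin (k + 1)))
    (hp : SkewIndec p) (hlast : p (Fin.last k) ≠ Fin.last k)
    (hle : ∀ m, avCount m (dsum (dsum x (1 : Perm (Fin 1))) y) ≤ avCount m p) :
    ∃ ρ : ℝ, 1 < ρ ∧ ∃ N, ∀ n, N ≤ n →
      ρ ^ n * (avCount n (dsum (dsum x (1 : Perm (Fin 2))) y) : ℝ) ≤
        (avCount n (dsum p (1 : Perm (Fin 1))) : ℝ) ∧
      (avCount n (dsum (dsum x (1 : Perm (Fin 2))) y) : ℝ) <
        (avCount n (dsum p (1 : Perm (Fin 1))) : ℝ) :=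
  end_insertion x y p hp hlast hle

end Pool.Agent.Results.MP_a87880_co.EndInsertion
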