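import Pool.Agent.helper48.CG.Main

/-!
MP_a87880_co (eventual dominance between avoider counts of two patterns).

For all nonempty patterns `x` and `y` the pattern `x ⊕ 12 ⊕ y` is avoided by exponentially fewer
permutations than `x ⊕ 21 ⊕ y`. More generally, if `p` is a pattern that is not a skew sum and does
not end with its largest entry, `y` is a nonempty pattern, and the growth rates of the avoiders of
`x ⊕ 1` and `1 ⊕ y'` are at most those of the avoiders of `p` and `1 ⊕ y`, then `x ⊕ 1 ⊕ y'` is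
avoided by exponentially fewer permutations than `p ⊕ y`.
-/

namespace Pool.Agent.Results.MP_a87880_co.GrowthGap

open Equiv Pool.Agent.helper48.PP Pool.Agent.helper48.CG

theorem result :
    (∀ {a b b' k : ℕ} (x : Perm (Fin a)) (y' : Perm (Fin b')) (y : Perm (Fin (b + 1)))
      (p : Perm (Fin (k + 1))), SkewIndec p → p (Fin.last k) ≠ Fin.last k →
      GrowthLe (dsum x (1 : Perm (Fin 1))) p →
      GrowthLe (dsum (1 : Perm (Fin 1)) y') (dsum (1 : Perm (Fin 1)) y) →
      ∃ ρ : ℝ, 1 < ρ ∧ ∃ N, ∀ n, N ≤ n →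
        ρ ^ n * (avCount n (dsum (dsum x (1 : Perm (Fin 1))) y') : ℝ) ≤
          (avCount n (dsum p y) : ℝ) ∧
        avCount n (dsum (dsum x (1 : Perm (Fin 1))) y') < avCount n (dsum p y)) ∧
    (∀ {a b : ℕ} (x : Perm (Fin (a + 1))) (y : Perm (Fin (b + 1))),
      ∃ ρ : ℝ, 1 < ρ ∧ ∃ N, ∀ n, N ≤ n →
        ρ ^ n * (avCount n (dsum (dsum x (1 : Perm (Fin 2))) y) : ℝ) ≤
          (avCount n (dsum (dsum x (Equiv.swap 0 1 : Perm (Fin 2))) y) : ℝ) ∧
        avCount n (dsum (dsum x (1 : Perm (Fin 2))) y) <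
          avCount n (dsum (dsum x (Equiv.swap 0 1 : Perm (Fin 2))) y)) :=
  ⟨fun x y' y p h1 h2 h3 h4 => main x y' y p h1 h2 h3 h4, fun x y => cor x y⟩

end Pool.Agent.Results.MP_a87880_co.GrowthGap
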