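import Pool.Agent.helper47.MSW.Main

/-!
MP_a87880_co (eventual dominance between avoider counts of two patterns).

Two patterns of the same length can switch places arbitrarily often: for every `T` there are a
length `k`, patterns `σ, τ` of length `k` and `n 0 < n 1 < ... < n (T-1)` such that
`|Av_n(σ)| < |Av_n(τ)|` for `n = n j` with `j` even and `|Av_n(τ)| < |Av_n(σ)|` for `n = n j` with
`j` odd. Both patterns are direct sums of skew sums of increasing permutations and of the patterns
`12` and `21`.
-/

namespace Pool.Agent.Results.MP_a87880_co.ManySwitches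

open Equiv Pool.Agent.helper48.PP Pool.Agent.MSW

theorem result : ∀ T : ℕ, ∃ (k : ℕ) (σ τ : Perm (Fin k)) (n : Fin T → ℕ), StrictMono n ∧
    ∀ j : Fin T, (Even (j : ℕ) → avCount (n j) σ < avCount (n j) τ) ∧
      (¬ Even (j : ℕ) → avCount (n j) τ < avCount (n j) σ) :=
  fTOP

end Pool.Agent.Results.MP_a87880_co.ManySwitches
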