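import Pool.Agent.helper48.PP.Swap

/-!
MP_a87880_co (eventual dominance between avoider counts of two patterns).

For all patterns `x` and `y` (possibly empty) and all `n`, the pattern `x ⊕ 12 ⊕ y` is avoided by
at most as many permutations of length `n` as the pattern `x ⊕ 21 ⊕ y`. More generally this holds
for every pattern `σ` contained in `x ⊕ 12 ⊕ y` and every pattern `τ` that contains
`x ⊕ 21 ⊕ y`, so that such a pair never switches places at all.
-/

namespace Pool.Agent.Results.MP_a87880_co.SwapDominance

open Equiv Pool.Agent.helper48.PP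

theorem result {a b k l : ℕ} (x : Perm (Fin a)) (y : Perm (Fin b))
    (σ : Perm (Fin k)) (τ : Perm (Fin l))
    (hσ : Contains (dsum (dsum x (1 : Perm (Fin 2))) y) σ)
    (hτ : Contains τ (dsum (dsum x (Equiv.swap 0 1 : Perm (Fin 2))) y)) (n : ℕ) :
    avCount n σ ≤ avCount n τ :=
  swap_dominance_gen x y σ τ hσ hτ n

end Pool.Agent.Results.MP_a87880_co.SwapDominance
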